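import Pool.Agent.R893.TP.Main

set_option autoImplicit false

/-!
# Vanishing path density forces star density one

The full answer to Q1, in the affirmative. The definitions `copies`, `total`, `TreeOn`, `profile`,
`limitSet`, `pathTree` and `starTree` are in `Pool.Agent.R893.TP.Defs`.

The proof has two parts. First, among the connected `k`-sets with a vertex of large degree all but a
small proportion are stars: such a set with a vertex `u` of maximal degree `D` which is not a star
contains a path `u v w`, so there are few of them unless many neighbours of `u` have degree at least
`δ D`; rooting the tree one sees that the `(k - 1)`-st powers of the degrees of these exceptional `u`
have a sum which is small compared with that of their children, hence compared with the number of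
stars. Second, if there were a positive proportion of connected `k`-sets of small degrees, then, as
paths are rare, one of their vertices would have all other vertices at distance less than `k - 1`, and
comparing the number of vertices with the number of stars at a vertex of maximal degree gives a
contradiction.
-/

namespace Pool.Agent.Results.MP_b90d6a_co.VanishingPathDensity

open Pool.Agent.R893.TP

/-- Let `k = m + 1 ≥ 4` and let `p` be a point of the limit set of `k`-profiles of trees. If the path
density of `p` is `0` then its star density is `1`. -/
theorem result (m : ℕ) (hm : 3 ≤ m) (p : TreeOn (m + 1) → ℝ) (hp : p ∈ limitSet (m + 1))
    (h0 : p (pathTree m) = 0) : p (starTree m) = 1 := by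
  obtain ⟨K, rfl⟩ := Nat.exists_eq_add_of_le' hm
  exact main K p hp h0

end Pool.Agent.Results.MP_b90d6a_co.VanishingPathDensity
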